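import Pool.Agent.Y924.UF.Stm4

/-! # UF4-BAIRE: countable closed subsets of `F_p((t))` are scattered (helper697) -/

set_option autoImplicit false

namespace Pool.Agent.Y697.UF

open Pool.Agent.Y924.UF

section

variable {p : ℕ} [Fact p.Prime]

open WithZero LaurentSeries

theorem mem_OO (x : LaurentSeries (ZMod p)) :
    x ∈ OO p ↔ (Valued.v x : WithZero (Multiplicative ℤ)) ≤ 1 := by
  rw [LaurentSeries.val_le_one_iff_eq_coe]
  rfl

theorem mem_mul_OO {b : LaurentSeries (ZMod p)} (hb : b ≠ 0) (x : LaurentSeries (ZMod p)) :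
    (∃ z, z ∈ OO p ∧ b * z = x) ↔
      (Valued.v x : WithZero (Multiplicative ℤ)) ≤ Valued.v b := by
  have hwb : (Valued.v b : WithZero (Multiplicative ℤ)) ≠ 0 := (Valuation.ne_zero_iff _).2 hb
  constructor
  · rintro ⟨z, hz, rfl⟩
    rw [mem_OO] at hz
    rw [map_mul]
    exact mul_le_of_le_one_right' hz
  · intro h
    refine ⟨x / b, ?_, by field_simp⟩
    rw [mem_OO]
    rw [map_div₀]
    exact div_le_one_of_le₀ h zero_le

/-- the two series agree below `m` -/
def Ag (m : ℤ) (x y : LaurentSeries (ZMod p)) : Prop := ∀ k < m, x.coeff k = y.coeff k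

theorem ball_single (m : ℤ) (x y : LaurentSeries (ZMod p)) :
    (∃ z, z ∈ OO p ∧ HahnSeries.single m (1 : ZMod p) * z + x = y) ↔ Ag m x y := by
  have h1 : (∃ z, z ∈ OO p ∧ HahnSeries.single m (1 : ZMod p) * z + x = y) ↔
      ∃ z, z ∈ OO p ∧ HahnSeries.single m (1 : ZMod p) * z = y - x := by
    constructor
    · rintro ⟨z, hz, h⟩
      exact ⟨z, hz, by rw [← h]; ring⟩
    · rintro ⟨z, hz, h⟩
      exact ⟨z, hz, by rw [h]; ring⟩
  have hne : HahnSeries.single m (1 : ZMod p) ≠ 0 := by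
    intro h
    have h2 := HahnSeries.single_eq_zero_iff.1 h
    exact one_ne_zero h2
  rw [h1, mem_mul_OO hne, LaurentSeries.valuation_single_zpow,
    LaurentSeries.valuation_le_iff_coeff_lt_eq_zero]
  constructor
  · intro h k hk
    have h2 := h k hk
    rw [HahnSeries.coeff_sub] at h2
    exact (sub_eq_zero.1 h2).symm
  · intro h k hk
    rw [HahnSeries.coeff_sub]
    exact sub_eq_zero.2 (h k hk).symm

theorem ball_of (b : LaurentSeries (ZMod p)) (hb : b ≠ 0) : ∃ m : ℤ, ∀ x y, Ag m x y →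
    ∃ z, z ∈ OO p ∧ b * z + x = y := by
  have hwb : (Valued.v b : WithZero (Multiplicative ℤ)) ≠ 0 := (Valuation.ne_zero_iff _).2 hb
  refine ⟨- log (Valued.v b : WithZero (Multiplicative ℤ)), fun x y h => ?_⟩
  have h1 : (Valued.v (y - x) : WithZero (Multiplicative ℤ)) ≤ Valued.v b := by
    have h2 : (Valued.v (y - x) : WithZero (Multiplicative ℤ)) ≤
        exp (-(- log (Valued.v b : WithZero (Multiplicative ℤ)))) := by
      rw [LaurentSeries.valuation_le_iff_coeff_lt_eq_zero]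
      intro k hk
      rw [HahnSeries.coeff_sub]
      exact sub_eq_zero.2 (h k hk).symm
    rwa [neg_neg, exp_log hwb] at h2
  obtain ⟨z, hz, hz2⟩ := (mem_mul_OO hb (y - x)).2 h1
  exact ⟨z, hz, by rw [hz2]; ring⟩

theorem ne_coeff {x y : LaurentSeries (ZMod p)} (h : x ≠ y) : ∃ k : ℤ, x.coeff k ≠ y.coeff k := by
  by_contra hcon
  push Not at hcon
  exact h (HahnSeries.ext (funext hcon))

end

theorem t_BAIRE : Pool.Agent.Y924.UF.S_BAIRE := by
  intro p _ S hS hcl T hTS hT
  by_contra hcon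
  push Not at hcon
  obtain ⟨s, hs⟩ := hS.exists_eq_range (hT.mono hTS)
  -- no isolated points
  have hni : ∀ x ∈ T, ∀ m : ℤ, ∃ y ∈ T, y ≠ x ∧ Ag m x y := by
    intro x hx m
    have hne : HahnSeries.single m (1 : ZMod p) ≠ 0 := by
      intro h
      have h2 := HahnSeries.single_eq_zero_iff.1 h
      exact one_ne_zero h2
    obtain ⟨y, hy, h1, h2⟩ := hcon x hx _ hne
    exact ⟨y, hy, h2, (ball_single m x y).1 h1⟩
  -- the step
  have hstep : ∀ (q : T × ℤ) (n : ℕ), ∃ q' : T × ℤ, Ag q.2 (q.1 : LaurentSeries (ZMod p)) q'.1 ∧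
      q.2 + 1 ≤ q'.2 ∧ ∃ k < q'.2, (s n).coeff k ≠ (q'.1 : LaurentSeries (ZMod p)).coeff k := by
    rintro ⟨⟨x, hx⟩, m⟩ n
    by_cases h : x = s n
    · obtain ⟨y, hy, hyx, hag⟩ := hni x hx m
      obtain ⟨k, hk⟩ := ne_coeff hyx
      refine ⟨(⟨y, hy⟩, max (m + 1) (k + 1)), hag, le_max_left _ _, k, ?_, ?_⟩
      · exact lt_of_lt_of_le (Int.lt_succ k) (le_max_right _ _)
      · rw [← h]
        exact fun h' => hk h'.symm
    · obtain ⟨k, hk⟩ := ne_coeff h
      refine ⟨(⟨x, hx⟩, max (m + 1) (k + 1)), fun _ _ => rfl, le_max_left _ _, k, ?_, ?_⟩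
      · exact lt_of_lt_of_le (Int.lt_succ k) (le_max_right _ _)
      · exact fun h' => hk h'.symm
  choose g hg1 hg2 hg3 using hstep
  obtain ⟨x0, hx0⟩ := hT
  let q : ℕ → T × ℤ := fun n => Nat.rec (⟨x0, hx0⟩, x0.order) (fun n q => g q n) n
  have hq : ∀ n, q (n + 1) = g (q n) n := fun _ => rfl
  have hm : ∀ n : ℕ, x0.order + n ≤ (q n).2 := by
    intro n
    induction n with
    | zero => simp [q]
    | succ n ih =>
      have := hg2 (q n) n
      rw [← hq] at this
      push_cast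
      linarith
  have hmono : ∀ n l : ℕ, (q n).2 ≤ (q (n + l)).2 := by
    intro n l
    induction l with
    | zero => exact le_rfl
    | succ l ih =>
      have := hg2 (q (n + l)) (n + l)
      rw [← hq] at this
      rw [← add_assoc]
      linarith
  have hag : ∀ n l : ℕ, Ag (q n).2 ((q n).1 : LaurentSeries (ZMod p)) (q (n + l)).1 := by
    intro n l
    induction l with
    | zero => exact fun _ _ => rfl
    | succ l ih =>
      intro k hk
      have h1 := hg1 (q (n + l)) (n + l) k (lt_of_lt_of_le hk (hmono n l))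
      rw [← hq] at h1
      rw [ih k hk, h1]
      rfl
  -- the limit
  let N : ℤ → ℕ := fun k => (k - x0.order + 1).toNat
  have hN : ∀ k : ℤ, k < (q (N k)).2 := by
    intro k
    have h1 := hm (N k)
    have h2 : k - x0.order + 1 ≤ ((N k : ℕ) : ℤ) := Int.self_le_toNat _
    linarith
  have hbdd : BddBelow (Function.support fun k : ℤ =>
      ((q (N k)).1 : LaurentSeries (ZMod p)).coeff k) := by
    refine ⟨x0.order, fun k hk => ?_⟩
    by_contra hlt
    push Not at hlt
    apply hk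
    have h1 := hag 0 (N k) k (lt_of_lt_of_le hlt (by simpa using hm 0))
    rw [Nat.zero_add] at h1
    change ((q (N k)).1 : LaurentSeries (ZMod p)).coeff k = 0
    rw [← h1]
    exact HahnSeries.coeff_eq_zero_of_lt_order hlt
  let x : LaurentSeries (ZMod p) := HahnSeries.ofSuppBddBelow _ hbdd
  have hx : ∀ n : ℕ, Ag (q n).2 ((q n).1 : LaurentSeries (ZMod p)) x := by
    intro n k hk
    change ((q n).1 : LaurentSeries (ZMod p)).coeff k =
      ((q (N k)).1 : LaurentSeries (ZMod p)).coeff k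
    rcases le_total n (N k) with h | h
    · obtain ⟨l, hl⟩ := Nat.exists_eq_add_of_le h
      rw [hl]
      exact hag n l k hk
    · obtain ⟨l, hl⟩ := Nat.exists_eq_add_of_le h
      rw [hl]
      exact (hag (N k) l k (hN k)).symm
  have hxS : x ∈ S := by
    by_contra hxS
    obtain ⟨b, hb, hb2⟩ := hcl x hxS
    obtain ⟨m, hm2⟩ := ball_of b hb
    have h1 : m < (q (N m)).2 := hN m
    refine hb2 _ (hTS (q (N m)).1.2) (hm2 _ _ ?_)
    intro k hk
    exact (hx (N m) k (hk.trans h1)).symm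
  rw [hs] at hxS
  obtain ⟨n, hn⟩ := hxS
  obtain ⟨k, hk1, hk2⟩ := hg3 (q n) n
  rw [← hq] at hk1 hk2
  apply hk2
  rw [hn]
  exact (hx (n + 1) k hk1).symm

end Pool.Agent.Y697.UF
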